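import Pool.Agent.X198.SspO

namespace Pool.Agent.Results.MP_13df43_gt.OWins

open X198.SspO

/-- There is a Hausdorff abelian topological group (written additively, all of whose elements
have order at most two) in which the closure of every countable subset, in particular of every
countable subgroup, is compact, such that player `O` has a winning strategy in the game `Ssp`;
hence player `P` has no winning strategy, and in particular no stationary one. -/
theorem result :
    ∃ (G : Type) (_ : AddCommGroup G) (_ : TopologicalSpace G),
      IsTopologicalAddGroup G ∧ T2Space G ∧ (∀ x : G, x + x = 0) ∧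
      (∀ A : Set G, A.Countable → IsCompact (closure A)) ∧
      (∀ H : AddSubgroup G, (H : Set G).Countable → IsCompact (closure (H : Set G))) ∧
      OHasWinning G ∧ ¬ PHasWinning G ∧ ¬ PHasStationaryWinning G := by
  refine ⟨X198.SspO.G ℝ, inferInstance, inferInstance, inferInstance, inferInstance, ?_,
    fun A hA => omegaBounded ℝ A hA, fun H hH => omegaBounded ℝ _ hH, O_wins,
    not_P_of_O O_wins, not_stationary_of_O O_wins⟩
  rintro ⟨x, hx⟩
  apply Subtype.ext
  funext a
  show x a + x a = 0
  have h : ∀ z : ZMod 2, z + z = 0 := by decide
  exact h _

end Pool.Agent.Results.MP_13df43_gt.OWins
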